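import Pool.Agent.T9h98.NK.SpecS

/-!
# Project NK, piece G1 (helper10): vertices and edges of a regular simplex
-/

set_option autoImplicit false

open Set
open scoped RealInnerProductSpace

namespace Pool.Agent.T9h10.NK

open Pool.Agent.T9h98.DC Pool.Agent.T9h44.NK Pool.Agent.T9h98.NK

/-- equidistant points are affinely independent -/
lemma eqd_indep {D m : ℕ} (u : Fin m → E D) (s : ℝ) (hs : 0 < s)
    (hd : ∀ i j, i ≠ j → dist (u i) (u j) = s) : AffineIndependent ℝ u := by
  classical
  intro S w hw h0 i hi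
  have h1 := EuclideanGeometry.inner_weightedVSub (s₁ := S) (w₁ := w) u hw (s₂ := S) (w₂ := w) u hw
  rw [h0, inner_zero_left] at h1
  have h2 : ∑ a ∈ S, ∑ b ∈ S, w a * w b * (dist (u a) (u b) * dist (u a) (u b)) =
      ∑ a ∈ S, -(w a ^ 2 * s ^ 2) := by
    refine Finset.sum_congr rfl fun a ha => ?_
    have h3 : ∑ b ∈ S, w a * w b * (dist (u a) (u b) * dist (u a) (u b)) =
        ∑ b ∈ S, (w a * s ^ 2 * w b - if b = a then w a ^ 2 * s ^ 2 else 0) := by
      refine Finset.sum_congr rfl fun b _ => ?_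
      by_cases hab : b = a
      · subst hab; simp; ring
      · rw [hd a b (Ne.symm hab), if_neg hab]; ring
    rw [h3, Finset.sum_sub_distrib, ← Finset.mul_sum, hw, Finset.sum_ite_eq' S a, if_pos ha]
    ring
  rw [h2, Finset.sum_neg_distrib, neg_neg] at h1
  have h4 : ∑ a ∈ S, w a ^ 2 * s ^ 2 = 0 := by linarith
  have h5 := (Finset.sum_eq_zero_iff_of_nonneg fun a _ => by positivity).1 h4 i hi
  have h6 : s ^ 2 ≠ 0 := by positivity
  have h7 : w i ^ 2 = 0 := by
    rcases mul_eq_zero.1 h5 with h | h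
    · exact h
    · exact absurd h h6
  exact pow_eq_zero_iff (two_ne_zero) |>.1 h7

/-- a sum of two coordinates of an affine basis is maximal on the simplex on the segment -/
lemma seg_face {d : ℕ} (b : AffineBasis (Fin (d + 1)) ℝ (E d)) {P : Set (E d)}
    (hP : P = convexHull ℝ (range b)) (i j : Fin (d + 1)) (hij : i ≠ j) :
    IsFace P (segment ℝ (b i) (b j)) := by
  classical
  have hmem : ∀ x, x ∈ P ↔ ∀ k, 0 ≤ b.coord k x := by
    intro x
    rw [hP, AffineBasis.convexHull_eq_nonneg_coord]
    rfl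
  have hsub : segment ℝ (b i) (b j) ⊆ P := by
    rw [hP]
    exact (convex_convexHull ℝ _).segment_subset (subset_convexHull ℝ _ ⟨i, rfl⟩)
      (subset_convexHull ℝ _ ⟨j, rfl⟩)
  refine ⟨⟨b i, left_mem_segment ℝ _ _⟩, ?_⟩
  intro _
  have hle : ∀ x ∈ P, b.coord i x + b.coord j x ≤ 1 := by
    intro x hx
    have h1 := b.sum_coord_apply_eq_one x
    rw [← Finset.add_sum_erase _ _ (Finset.mem_univ i),
      ← Finset.add_sum_erase _ _ (Finset.mem_erase.2 ⟨hij.symm, Finset.mem_univ j⟩)] at h1
    have h2 : 0 ≤ ∑ k ∈ (Finset.univ.erase i).erase j, b.coord k x :=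
      Finset.sum_nonneg fun k _ => (hmem x).1 hx k
    linarith
  let L : E d →ₗ[ℝ] ℝ := (b.coord i).linear + (b.coord j).linear
  have hL : ∀ x y, L x - L y = (b.coord i x + b.coord j x) - (b.coord i y + b.coord j y) := by
    intro x y
    have h1 := (b.coord i).linearMap_vsub x y
    have h2 := (b.coord j).linearMap_vsub x y
    rw [vsub_eq_sub, vsub_eq_sub] at h1 h2
    rw [← map_sub]
    change (b.coord i).linear (x - y) + (b.coord j).linear (x - y) = _
    rw [h1, h2]
    ring
  have hseg1 : ∀ x ∈ segment ℝ (b i) (b j), b.coord i x + b.coord j x = 1 := by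
    intro x hx
    rw [segment_eq_image_lineMap] at hx
    obtain ⟨t, -, rfl⟩ := hx
    rw [AffineMap.apply_lineMap, AffineMap.apply_lineMap, b.coord_apply_eq, b.coord_apply_ne hij.symm.symm,
      b.coord_apply_ne hij.symm, b.coord_apply_eq]
    simp [AffineMap.lineMap_apply]
  refine ⟨LinearMap.toContinuousLinearMap L, ?_⟩
  ext x
  constructor
  · intro hx
    refine ⟨hsub hx, fun y hy => ?_⟩
    change L y ≤ L x
    have h1 := hL x y
    have h2 := hseg1 x hx
    have h3 := hle y hy
    linarith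
  · rintro ⟨hx, hmax⟩
    have h1 : L (b i) ≤ L x := hmax (b i) (hsub (left_mem_segment ℝ _ _))
    have h2 := hL x (b i)
    have h3 := hseg1 (b i) (left_mem_segment ℝ _ _)
    have h4 := hle x hx
    have h5 : b.coord i x + b.coord j x = 1 := by linarith
    have h6 := b.sum_coord_apply_eq_one x
    rw [← Finset.add_sum_erase _ _ (Finset.mem_univ i),
      ← Finset.add_sum_erase _ _ (Finset.mem_erase.2 ⟨hij.symm, Finset.mem_univ j⟩)] at h6
    have h7 : ∑ k ∈ (Finset.univ.erase i).erase j, b.coord k x = 0 := by linarith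
    have h8 := (Finset.sum_eq_zero_iff_of_nonneg fun k _ => (hmem x).1 hx k).1 h7
    have h9 := b.linear_combination_coord_eq_self x
    rw [← Finset.add_sum_erase _ _ (Finset.mem_univ i),
      ← Finset.add_sum_erase _ _ (Finset.mem_erase.2 ⟨hij.symm, Finset.mem_univ j⟩),
      Finset.sum_eq_zero (s := (Finset.univ.erase i).erase j)
        (fun k hk => by rw [h8 k hk, zero_smul]), add_zero] at h9
    rw [← h9]
    exact ⟨b.coord i x, b.coord j x, (hmem x).1 hx i, (hmem x).1 hx j, h5, rfl⟩

/-- a point of an affine basis is a vertex of the simplex -/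
lemma vert_face {d : ℕ} (b : AffineBasis (Fin (d + 1)) ℝ (E d)) {P : Set (E d)}
    (hP : P = convexHull ℝ (range b)) (i : Fin (d + 1)) : IsFace P {b i} := by
  classical
  have hmem : ∀ x, x ∈ P ↔ ∀ k, 0 ≤ b.coord k x := by
    intro x
    rw [hP, AffineBasis.convexHull_eq_nonneg_coord]
    rfl
  have hbi : b i ∈ P := by rw [hP]; exact subset_convexHull ℝ _ ⟨i, rfl⟩
  refine ⟨⟨b i, rfl⟩, ?_⟩
  intro _
  have hle : ∀ x ∈ P, b.coord i x ≤ 1 := by
    intro x hx
    have h1 := b.sum_coord_apply_eq_one x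
    rw [← Finset.add_sum_erase _ _ (Finset.mem_univ i)] at h1
    have h2 : 0 ≤ ∑ k ∈ (Finset.univ.erase i), b.coord k x :=
      Finset.sum_nonneg fun k _ => (hmem x).1 hx k
    linarith
  let L : E d →ₗ[ℝ] ℝ := (b.coord i).linear
  have hL : ∀ x y, L x - L y = b.coord i x - b.coord i y := by
    intro x y
    have h1 := (b.coord i).linearMap_vsub x y
    rw [vsub_eq_sub, vsub_eq_sub] at h1
    rw [← map_sub]
    change (b.coord i).linear (x - y) = _
    rw [h1]
  refine ⟨LinearMap.toContinuousLinearMap L, ?_⟩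
  ext x
  constructor
  · intro hx
    rw [mem_singleton_iff] at hx
    subst hx
    refine ⟨hbi, fun y hy => ?_⟩
    change L y ≤ L (b i)
    have h1 := hL (b i) y
    have h2 := b.coord_apply_eq i
    have h3 := hle y hy
    linarith
  · rintro ⟨hx, hmax⟩
    have h1 : L (b i) ≤ L x := hmax (b i) hbi
    have h2 := hL x (b i)
    have h3 := b.coord_apply_eq i
    have h4 := hle x hx
    have h5 : b.coord i x = 1 := by linarith
    have h6 := b.sum_coord_apply_eq_one x
    rw [← Finset.add_sum_erase _ _ (Finset.mem_univ i)] at h6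
    have h7 : ∑ k ∈ (Finset.univ.erase i), b.coord k x = 0 := by linarith
    have h8 := (Finset.sum_eq_zero_iff_of_nonneg fun k _ => (hmem x).1 hx k).1 h7
    have h9 := b.linear_combination_coord_eq_self x
    rw [← Finset.add_sum_erase _ _ (Finset.mem_univ i),
      Finset.sum_eq_zero (s := (Finset.univ.erase i))
        (fun k hk => by rw [h8 k hk, zero_smul]), add_zero, h5, one_smul] at h9
    exact h9.symm

/-- a vertex of a hull is one of the points -/
lemma vx_hull {d : ℕ} {A : Set (E d)} {x : E d} (h : Vx (convexHull ℝ A) x) : x ∈ A := by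
  have h1 : x ∈ (convexHull ℝ A).extremePoints ℝ := by
    have h2 := (h.2.isExtreme)
    exact h2.mem_extremePoints
  exact extremePoints_convexHull_subset h1

theorem g1 : S_G1 := by
  classical
  intro D Q u s hD hs hd hQ
  have hinj : Function.Injective u := by
    intro i j hij
    by_contra hne
    have h1 := hd i j hne
    rw [hij, dist_self] at h1
    linarith
  have hai := eqd_indep u s hs hd
  have htop : affineSpan ℝ (range u) = ⊤ := by
    rw [hai.affineSpan_eq_top_iff_card_eq_finrank_add_one]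
    simp
  let b : AffineBasis (Fin (D + 1)) ℝ (E D) := ⟨u, hai, htop⟩
  have hb : (b : Fin (D + 1) → E D) = u := rfl
  have hQb : Q = convexHull ℝ (range b) := hQ
  refine ⟨fun x => ⟨fun hx => ?_, ?_⟩, hinj, fun i j hij => ?_, fun hsum => ?_⟩
  · rw [hQ] at hx
    exact vx_hull hx
  · rintro ⟨i, rfl⟩
    exact vert_face b hQb i
  · exact ⟨fun h => hij (hinj h), seg_face b hQb i j hij⟩
  · have hD' : (0 : ℝ) < D := by exact_mod_cast hD
    have h1 : ∀ i j, ⟪u i, u j⟫ = (⟪u i, u i⟫ + ⟪u j, u j⟫ - s ^ 2) / 2 +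
        if j = i then s ^ 2 / 2 else 0 := by
      intro i j
      by_cases hij : j = i
      · subst hij; rw [if_pos rfl]; ring
      · rw [if_neg hij]
        have h2 := hd i j (Ne.symm hij)
        rw [dist_eq_norm] at h2
        have h3 := norm_sub_sq_real (u i) (u j)
        rw [h2] at h3
        rw [real_inner_self_eq_norm_sq, real_inner_self_eq_norm_sq]
        linarith
    set R : ℝ := ∑ j, ⟪u j, u j⟫ with hR
    have h2 : ∀ i, (D + 1 : ℝ) * ⟪u i, u i⟫ = D * s ^ 2 - R := by
      intro i
      have h3 : ∑ j, ⟪u i, u j⟫ = 0 := by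
        rw [← inner_sum, hsum, inner_zero_right]
      rw [Finset.sum_congr rfl fun j _ => h1 i j, Finset.sum_add_distrib, ← Finset.sum_div,
        Finset.sum_sub_distrib, Finset.sum_add_distrib, Finset.sum_ite_eq' Finset.univ i,
        if_pos (Finset.mem_univ i), ← hR] at h3
      simp only [Finset.sum_const, Finset.card_univ, Fintype.card_fin, nsmul_eq_mul] at h3
      push_cast at h3
      linarith
    have h3 : R = D * s ^ 2 / 2 := by
      have h4 : ∑ i, (D + 1 : ℝ) * ⟪u i, u i⟫ = ∑ i : Fin (D + 1), ((D : ℝ) * s ^ 2 - R) :=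
        Finset.sum_congr rfl fun i _ => h2 i
      rw [← Finset.mul_sum, ← hR] at h4
      simp only [Finset.sum_const, Finset.card_univ, Fintype.card_fin, nsmul_eq_mul] at h4
      push_cast at h4
      have h5 : R = D * s ^ 2 - R := mul_left_cancel₀ (by positivity : (D + 1 : ℝ) ≠ 0) h4
      linarith
    have h4 : ∀ i, ⟪u i, u i⟫ = D * s ^ 2 / (2 * (D + 1)) := by
      intro i
      have h5 := h2 i
      rw [h3] at h5
      field_simp
      linarith
    refine ⟨D * s ^ 2 / (2 * (D + 1)), by positivity, h4, fun i j hij => ?_⟩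
    rw [h1 i j, if_neg (Ne.symm hij), h4, h4]
    field_simp
    ring

end Pool.Agent.T9h10.NK
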