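import Pool.Agent.T9h44.NK.SpecA
import Pool.Agent.T9h44.NK.SpecB

/-!
# Project NK, piece L1 (helper10)
-/

set_option autoImplicit false

open Set
open scoped RealInnerProductSpace

namespace Pool.Agent.T9h10.NK

open Pool.Agent.T9h98.DC Pool.Agent.T9h44.NK

theorem l1 : S_FACES → S_M0 → S_RANKIN → S_SIMP → S_L1 := by
  intro hF hM0 hR hS d P c hP hU hE hc
  have hPC : PC c P := hM0 d P c hP hU hE (by linarith)
  have hfin := (hF (d + 1) P hP.1).2.2.1
  have hmem : ∀ v, v ∈ hfin.toFinset ↔ Vx P v := fun v => by simp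
  have hcard : hfin.toFinset.card ≤ d + 1 + 1 := by
    refine hR (d + 1) hfin.toFinset fun x hx y hy hxy => ?_
    exact lt_of_le_of_lt (hPC x y ((hmem x).1 hx) ((hmem y).1 hy) hxy) hc
  obtain ⟨h1, v, h2, h3, h4, h5⟩ := hS (d + 1) P hfin.toFinset hP (fun v hv => (hmem v).2 hv) hcard
  refine ⟨⟨v, Real.sqrt (2 - 2 * c), Real.sqrt_pos.2 (by linarith), fun i j hij => ?_, h5⟩, h1⟩
  have ha := h1 (v i) (v j) (h3 i) (h3 j) (h2.ne hij)
  have hc' := hE _ _ ha
  rw [dist_eq_norm]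
  apply (Real.sqrt_eq_iff_mul_self_eq (by linarith) (norm_nonneg _)).2 _ |>.symm
  have h6 := norm_sub_sq_real (v i) (v j)
  rw [hU _ (h3 i), hU _ (h3 j), hc'] at h6
  nlinarith [h6]

end Pool.Agent.T9h10.NK
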